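import Mathlib
import Pool.Agent.X51.Cov.Table
import Pool.Agent.X51.Cov.Body

namespace Pool.Agent.Results.MP_4f7bfc_co.InteriorVertex

open Pool.Agent.X51.Cov

/-- The lattice `A ℤ^n`. -/
def lattice {n : ℕ} (A : Matrix (Fin n) (Fin n) ℝ) : Set (Fin n → ℝ) :=
  {y | ∃ z : Fin n → ℤ, y = A.mulVec (fun i => (z i : ℝ))}

/-- `K` is a lattice covering body for `L`: `K` is compact and convex and `K + L` is the whole
space. -/
def IsCoveringBody {n : ℕ} (L K : Set (Fin n → ℝ)) : Prop :=
  IsCompact K ∧ Convex ℝ K ∧ ∀ y : Fin n → ℝ, ∃ k ∈ K, ∃ l ∈ L, y = k + l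

/-- `K` is a minimal covering body for `L`. -/
def IsMinimalCoveringBody {n : ℕ} (L K : Set (Fin n → ℝ)) : Prop :=
  IsCoveringBody L K ∧
    ∀ K' : Set (Fin n → ℝ), IsCompact K' → Convex ℝ K' → K' ⊂ K → ¬ IsCoveringBody L K'

/-- `Q` is a full-dimensional lattice polytope for `L`. -/
def IsFullDimLatticePolytope {n : ℕ} (L Q : Set (Fin n → ℝ)) : Prop :=
  (∃ S : Set (Fin n → ℝ), S.Finite ∧ S ⊆ L ∧ Q = convexHull ℝ S) ∧ (interior Q).Nonempty

lemma exists_minimal {n : ℕ} {L : Set (Fin n → ℝ)} (hL : IsClosed L) {K₀ : Set (Fin n → ℝ)}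
    (h₀ : IsCoveringBody L K₀) : ∃ K ⊆ K₀, IsMinimalCoveringBody L K := by
  have H : ∀ c ⊆ {K : Set (Fin n → ℝ) | IsCoveringBody L K}, IsChain (· ⊆ ·) c → c.Nonempty →
      ∃ lb ∈ {K : Set (Fin n → ℝ) | IsCoveringBody L K}, ∀ s ∈ c, lb ⊆ s := by
    intro c hc hchain hne
    refine ⟨⋂₀ c, ⟨?_, ?_, ?_⟩, fun s hs => Set.sInter_subset_of_mem hs⟩
    · obtain ⟨K1, hK1⟩ := hne
      exact IsCompact.of_isClosed_subset (hc hK1).1
        (isClosed_sInter fun K hK => (hc hK).1.isClosed) (Set.sInter_subset_of_mem hK1)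
    · exact convex_sInter fun K hK => (hc hK).2.1
    · intro y
      have : Nonempty c := hne.to_subtype
      have hcl : IsClosed {k : Fin n → ℝ | y - k ∈ L} := hL.preimage (by fun_prop)
      have hne2 : (⋂ K : c, (K : Set (Fin n → ℝ)) ∩ {k | y - k ∈ L}).Nonempty := by
        refine IsCompact.nonempty_iInter_of_directed_nonempty_isCompact_isClosed
          (fun K : c => (K : Set (Fin n → ℝ)) ∩ {k | y - k ∈ L}) ?_ ?_ ?_ ?_
        · intro K1 K2
          rcases hchain.total K1.2 K2.2 with h | h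
          · exact ⟨K1, fun x hx => hx, fun x hx => ⟨h hx.1, hx.2⟩⟩
          · exact ⟨K2, fun x hx => ⟨h hx.1, hx.2⟩, fun x hx => hx⟩
        · intro K
          obtain ⟨k, hk, l, hl, e⟩ := (hc K.2).2.2 y
          refine ⟨k, hk, ?_⟩
          show y - k ∈ L
          rw [e]
          simpa using hl
        · intro K
          exact (hc K.2).1.inter_right hcl
        · intro K
          exact (hc K.2).1.isClosed.inter hcl
      obtain ⟨k, hk⟩ := hne2
      rw [Set.mem_iInter] at hk
      refine ⟨k, ?_, y - k, (hk (Classical.arbitrary c)).2, by abel⟩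
      rw [Set.mem_sInter]
      intro K hK
      exact (hk ⟨K, hK⟩).1
  obtain ⟨m, hm, hmin⟩ := zorn_superset_nonempty {K | IsCoveringBody L K} H K₀ h₀
  refine ⟨m, hm, hmin.1, ?_⟩
  intro K' _ _ hlt hcov
  exact hlt.2 (hmin.2 hcov hlt.1)

/-- the lattice `1000 ℤ^5` -/
noncomputable def A₀ : Matrix (Fin 5) (Fin 5) ℝ := (1000 : ℝ) • (1 : Matrix (Fin 5) (Fin 5) ℝ)

lemma mem_L {y : Fin 5 → ℝ} : y ∈ lattice A₀ ↔ ∃ z : Fin 5 → ℤ, ∀ i, y i = 1000 * (z i : ℝ) := by
  unfold lattice A₀
  simp only [Set.mem_setOf_eq, Matrix.smul_mulVec, Matrix.one_mulVec]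
  constructor
  · rintro ⟨z, rfl⟩
    exact ⟨z, fun i => by simp⟩
  · rintro ⟨z, h⟩
    refine ⟨z, ?_⟩
    funext i
    simp [h i]

lemma L_closed : IsClosed (lattice A₀) := by
  have h1 : IsClosed (Set.range (fun z : ℤ => (1000 : ℝ) * (z : ℝ))) := by
    have h := (Homeomorph.mulLeft₀ (1000 : ℝ) (by norm_num)).isClosedMap _
      Int.isClosedEmbedding_coe_real.isClosed_range
    rw [← Set.range_comp] at h
    exact h
  have h2 : lattice A₀ = Set.pi Set.univ
      (fun _ : Fin 5 => Set.range (fun z : ℤ => (1000 : ℝ) * (z : ℝ))) := by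
    ext y
    rw [mem_L]
    simp only [Set.mem_pi, Set.mem_univ, Set.mem_range, forall_true_left]
    constructor
    · rintro ⟨z, hz⟩ i
      exact ⟨z i, (hz i).symm⟩
    · intro h
      choose z hz using h
      exact ⟨z, fun i => (hz i).symm⟩
  rw [h2]
  exact isClosed_set_pi fun _ _ => h1

lemma K0_covering : IsCoveringBody (lattice A₀) K0 := by
  refine ⟨K0_compact, K0_convex, ?_⟩
  intro y
  obtain ⟨z, hz⟩ := K0_cover y
  refine ⟨_, hz, fun i => -(1000 * (z i : ℝ)), ?_, ?_⟩
  · rw [mem_L]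
    exact ⟨fun i => - z i, fun i => by push_cast; ring⟩
  · funext i
    simp

lemma mem_of_uniq {K : Set (Fin 5 → ℝ)} (hK : IsCoveringBody (lattice A₀) K) (hKs : K ⊆ K0)
    {p : Fin 5 → ℝ} (hp : ∀ z : Fin 5 → ℤ, (fun i => p i + 1000 * (z i : ℝ)) ∈ K0 → z = 0) :
    p ∈ K := by
  obtain ⟨k, hk, l, hl, e⟩ := hK.2.2 p
  obtain ⟨z, hz⟩ := mem_L.1 hl
  have h1 : (fun i => p i + 1000 * (((-z) i : ℤ) : ℝ)) = k := by
    funext i
    rw [e]
    simp only [Pi.add_apply, Pi.neg_apply, hz i]
    push_cast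
    ring
  have h2 : -z = 0 := hp (-z) (by rw [h1]; exact hKs hk)
  rw [h2] at h1
  have h3 : p = k := by
    rw [← h1]
    funext i
    simp
  rw [h3]
  exact hk

/-- the translation vector -/
noncomputable def v₀ : Fin 5 → ℝ := fun _ => 5 / 2

/-- the auxiliary point in the cube -/
noncomputable def Z (a : ℕ) : Fin 5 → ℝ := fun i =>
  P a i + 32 * (1000 * (co a i : ℝ) + 5 / 2 - P a i)

lemma Z_bounds {a : ℕ} (ha : a ∈ crit) (i : Fin 5) : 4 ≤ Z a i ∧ Z a i ≤ 999 := by
  have hU0 : (0 : ℝ) ≤ (U a i : ℝ) := Nat.cast_nonneg _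
  obtain ⟨h1, h2⟩ := crit_U a ha i
  rcases hc : bit a i with _ | _
  · have e1 : (sg a i : ℝ) = 1 := by simp [sg, hc]
    have e2 : (co a i : ℝ) = 0 := by simp [co, hc]
    have e3 : (U a i : ℝ) ≤ 2 := by exact_mod_cast h1 hc
    simp only [Z, P, e1, e2]
    constructor <;> linarith
  · have e1 : (sg a i : ℝ) = -1 := by simp [sg, hc]
    have e2 : (co a i : ℝ) = 1 := by simp [co, hc]
    have e3 : (U a i : ℝ) = 3 := by exact_mod_cast h2 hc
    simp only [Z, P, e1, e2, e3]
    constructor <;> linarith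

lemma combo (a : ℕ) : (fun i : Fin 5 => 1000 * (co a i : ℝ) + 5 / 2) =
    (31 / 32 : ℝ) • P a + (1 / 32 : ℝ) • Z a := by
  funext i
  simp only [Z, Pi.add_apply, Pi.smul_apply, smul_eq_mul]
  ring

/-- MP_4f7bfc_co, Q1 (disproof; the negated form holds with `n = 5`): there are a full-rank lattice
`A ℤ^5` in `ℝ^5`, a minimal covering body `K`, a full-dimensional lattice polytope `Q` and a vector
`x` with `Q + x ⊆ K` such that some vertex `w` of `Q + x` lies in the interior of `K`. -/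
theorem result : ∃ A : Matrix (Fin 5) (Fin 5) ℝ, IsUnit A.det ∧
    ∃ K : Set (Fin 5 → ℝ), IsMinimalCoveringBody (lattice A) K ∧
    ∃ Q : Set (Fin 5 → ℝ), IsFullDimLatticePolytope (lattice A) Q ∧
    ∃ x : Fin 5 → ℝ, (fun q => q + x) '' Q ⊆ K ∧
    ∃ w ∈ Set.extremePoints ℝ ((fun q => q + x) '' Q), w ∈ interior K := by
  obtain ⟨K, hKs, hK⟩ := exists_minimal L_closed K0_covering
  have hcon : Convex ℝ K := hK.1.2.1
  have hP : ∀ a ∈ crit, P a ∈ K := fun a ha => mem_of_uniq hK.1 hKs (uniq ha)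
  have hcube : ∀ x : Fin 5 → ℝ, (∀ i, 4 ≤ x i ∧ x i ≤ 999) → x ∈ K := fun x hx =>
    mem_of_uniq hK.1 hKs (uniq_cube x hx)
  have hW : ∀ a ∈ crit, (fun i : Fin 5 => 1000 * (co a i : ℝ) + 5 / 2) ∈ K := by
    intro a ha
    rw [combo a]
    exact hcon (hP a ha) (hcube _ (Z_bounds ha)) (by norm_num) (by norm_num) (by norm_num)
  have h0 : (0 : ℕ) ∈ crit := by decide
  have hopen : IsOpen {x : Fin 5 → ℝ | ∀ i, 4 < x i ∧ x i < 999} := by
    have : {x : Fin 5 → ℝ | ∀ i, 4 < x i ∧ x i < 999} =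
        ⋂ i : Fin 5, {x | 4 < x i} ∩ {x | x i < 999} := by
      ext x; simp
    rw [this]
    exact isOpen_iInter_of_finite fun i =>
      (isOpen_lt continuous_const (continuous_apply i)).inter
        (isOpen_lt (continuous_apply i) continuous_const)
  have hZint : Z 0 ∈ interior K := by
    rw [mem_interior]
    refine ⟨_, fun x hx => hcube x fun i => ⟨(hx i).1.le, (hx i).2.le⟩, hopen, ?_⟩
    intro i
    have e1 : (sg 0 i : ℝ) = 1 := by simp [sg, bit]
    have e2 : (co 0 i : ℝ) = 0 := by simp [co, bit]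
    have e3 : (U 0 i : ℝ) = 1 := by exact_mod_cast U_zero i
    simp only [Z, P, e1, e2, e3]
    norm_num
  have hv : v₀ ∈ interior K := by
    have e : v₀ = (31 / 32 : ℝ) • P 0 + (1 / 32 : ℝ) • Z 0 := by
      rw [← combo 0]
      funext i
      simp [v₀, co, bit]
    rw [e]
    exact hcon.combo_self_interior_mem_interior (hP 0 h0) hZint (by norm_num) (by norm_num)
      (by norm_num)
  -- the lattice polytope
  set S : Set (Fin 5 → ℝ) := insert 0 (Set.range fun i : Fin 5 => (Pi.single i 1000 : Fin 5 → ℝ))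
    with hS
  have hSL : S ⊆ lattice A₀ := by
    intro y hy
    rw [mem_L]
    rcases hy with rfl | ⟨i, rfl⟩
    · exact ⟨0, fun i => by simp⟩
    · refine ⟨Pi.single i 1, fun j => ?_⟩
      by_cases h : j = i
      · subst h; simp
      · simp [Pi.single_eq_of_ne h]
  have hQint : (interior (convexHull ℝ S)).Nonempty := by
    refine ⟨fun _ => 100, ?_⟩
    rw [mem_interior]
    refine ⟨{x : Fin 5 → ℝ | (∀ i, 0 < x i) ∧ ∑ i, x i < 1000}, ?_, ?_, ?_⟩
    · intro x hx
      have hsum : x = ∑ o : Option (Fin 5),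
          (o.elim (1 - ∑ i, x i / 1000) (fun i => x i / 1000)) •
          (o.elim (0 : Fin 5 → ℝ) (fun i => Pi.single i 1000)) := by
        rw [Fintype.sum_option]
        funext j
        simp [Finset.sum_apply, Pi.single_apply]
      rw [hsum]
      refine (convex_convexHull ℝ S).sum_mem ?_ ?_ ?_
      · intro o _
        rcases o with _ | i
        · simp only [Option.elim]
          have : ∑ i, x i / 1000 = (∑ i, x i) / 1000 := by rw [Finset.sum_div]
          rw [this]
          linarith [hx.2]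
        · simp only [Option.elim]
          have := hx.1 i
          positivity
      · rw [Fintype.sum_option]
        simp
      · intro o _
        rcases o with _ | i
        · exact subset_convexHull ℝ S (Or.inl rfl)
        · exact subset_convexHull ℝ S (Or.inr ⟨i, rfl⟩)
    · have : {x : Fin 5 → ℝ | (∀ i, 0 < x i) ∧ ∑ i, x i < 1000} =
          (⋂ i : Fin 5, {x | 0 < x i}) ∩ {x | ∑ i, x i < 1000} := by
        ext x; simp
      rw [this]
      exact (isOpen_iInter_of_finite fun i => isOpen_lt continuous_const (continuous_apply i)).inter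
        (isOpen_lt (by fun_prop) continuous_const)
    · refine ⟨fun i => by norm_num, ?_⟩
      simp only [Finset.sum_const, Finset.card_univ, Fintype.card_fin]
      norm_num
  have hQ : IsFullDimLatticePolytope (lattice A₀) (convexHull ℝ S) :=
    ⟨⟨S, (Set.finite_range _).insert 0, hSL, rfl⟩, hQint⟩
  have hQK : (fun q => q + v₀) '' (convexHull ℝ S) ⊆ K := by
    have hpre : Convex ℝ {q : Fin 5 → ℝ | q + v₀ ∈ K} := by
      intro x hx y hy α β hα hβ h
      have e : α • x + β • y + v₀ = α • (x + v₀) + β • (y + v₀) := by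
        rw [smul_add, smul_add]
        have : v₀ = α • v₀ + β • v₀ := by rw [← add_smul, h, one_smul]
        nth_rewrite 1 [this]
        abel
      show α • x + β • y + v₀ ∈ K
      rw [e]
      exact hcon hx hy hα hβ h
    have hsub : S ⊆ {q : Fin 5 → ℝ | q + v₀ ∈ K} := by
      intro q hq
      rcases hq with rfl | ⟨i, rfl⟩
      · show (0 : Fin 5 → ℝ) + v₀ ∈ K
        rw [zero_add]
        exact interior_subset hv
      · show (Pi.single i 1000 + v₀ : Fin 5 → ℝ) ∈ K
        have h1 := hW _ (pow_crit i)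
        have e : (Pi.single i 1000 + v₀ : Fin 5 → ℝ) =
            fun j : Fin 5 => 1000 * (co (2 ^ (i : ℕ)) j : ℝ) + 5 / 2 := by
          funext j
          simp only [Pi.add_apply, v₀, co, bit_pow i j]
          by_cases h : j = i
          · subst h; simp
          · simp [h]
        rw [e]
        exact h1
    rintro _ ⟨q, hq, rfl⟩
    exact convexHull_min hsub hpre hq
  have hdet : IsUnit A₀.det := by
    rw [isUnit_iff_ne_zero]
    unfold A₀
    rw [Matrix.det_smul, Matrix.det_one]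
    norm_num
  have hpos : ∀ q ∈ convexHull ℝ S, ∀ i, 0 ≤ q i := by
    have hc : Convex ℝ {q : Fin 5 → ℝ | ∀ i, 0 ≤ q i} := by
      intro x hx y hy α β hα hβ _ i
      simp only [Pi.add_apply, Pi.smul_apply, smul_eq_mul]
      exact add_nonneg (mul_nonneg hα (hx i)) (mul_nonneg hβ (hy i))
    have hs : S ⊆ {q : Fin 5 → ℝ | ∀ i, 0 ≤ q i} := by
      intro q hq
      rcases hq with rfl | ⟨j, rfl⟩
      · intro i; simp
      · intro i
        by_cases h : i = j
        · subst h; simp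
        · simp [Pi.single_eq_of_ne h]
    intro q hq
    exact convexHull_min hs hc hq
  have hext : v₀ ∈ Set.extremePoints ℝ ((fun q => q + v₀) '' (convexHull ℝ S)) := by
    rw [mem_extremePoints]
    refine ⟨⟨0, subset_convexHull ℝ S (Or.inl rfl), by simp⟩, ?_⟩
    rintro _ ⟨q1, hq1, rfl⟩ _ ⟨q2, hq2, rfl⟩ ⟨α, β, hα, hβ, hαβ, e⟩
    have e2 : ∀ i, α * q1 i + β * q2 i = 0 := by
      intro i
      have := congrFun e i
      simp only [Pi.add_apply, Pi.smul_apply, smul_eq_mul] at this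
      have h3 : α * v₀ i + β * v₀ i = v₀ i := by rw [← add_mul, hαβ, one_mul]
      linarith
    have e3 : q1 = 0 := by
      funext i
      have h1 := mul_nonneg hα.le (hpos q1 hq1 i)
      have h2 := mul_nonneg hβ.le (hpos q2 hq2 i)
      have h3 : α * q1 i = 0 := by linarith [e2 i]
      rcases mul_eq_zero.1 h3 with h | h
      · exact absurd h hα.ne'
      · simpa using h
    have e4 : q2 = 0 := by
      funext i
      have h1 := mul_nonneg hα.le (hpos q1 hq1 i)
      have h2 := mul_nonneg hβ.le (hpos q2 hq2 i)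
      have h3 : β * q2 i = 0 := by linarith [e2 i]
      rcases mul_eq_zero.1 h3 with h | h
      · exact absurd h hβ.ne'
      · simpa using h
    subst e3 e4
    simp
  exact ⟨A₀, hdet, K, hK, convexHull ℝ S, hQ, v₀, hQK, v₀, hext, hv⟩

end Pool.Agent.Results.MP_4f7bfc_co.InteriorVertex
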